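import Pool.Agent.Helper99.DF.St

/-!
# Project DF, module CMP: completeness of the certificates
-/

set_option autoImplicit false

namespace Pool.Agent.Helper54.DF

open Pool.Agent.Helper99.DF Filter Topology

/-- Integer form of `Per`. -/
theorem per_int {S : Finset ℕ} {b0 : ℕ → ℤ} (h : Per S (fun k => (b0 k : ℝ))) (t k : ℕ) :
    (k ∈ S → 0 < (T^[t] b0) k) ∧ (k ∉ S → (T^[t] b0) k = 0) := by
  constructor
  · intro hk
    have h1 := h.pos (t := t) hk
    rw [T_iter_cast] at h1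
    exact_mod_cast h1
  · intro hk
    have h1 := h.zero (t := t) hk
    rw [T_iter_cast] at h1
    exact_mod_cast h1

/-- Positivity of monomials. -/
theorem mon_pos (W : List ℕ) (N : ℕ) (e : List ℕ) (b : ℕ → ℤ)
    (h : ∀ k ∈ W, 0 < b k ∧ 0 < b (k - 1) * b (k + 1)) : 0 < mon W N e b := by
  induction W with
  | nil => simp [mon]
  | cons a W ih =>
    have h1 := h a (by simp)
    have h2 := ih (fun k hk => h k (by simp [hk]))
    have h3 : mon (a :: W) N e b =
        (b (a - 1) * b (a + 1)) ^ (ex e a) * (b a ^ 2) ^ (N - ex e a) * mon W N e b := by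
      simp [mon]
    rw [h3]
    have h4 := h1.1
    have h5 := h1.2
    positivity

theorem prod_zero {S : Finset ℕ} {b0 : ℕ → ℤ} (h : Per S (fun k => (b0 k : ℝ))) (t k : ℕ)
    (hk : k ∉ act S) : (T^[t] b0) (k - 1) * (T^[t] b0) (k + 1) = 0 := by
  by_cases h1 : k ∈ S
  · by_cases h2 : k - 1 ∈ S
    · by_cases h3 : k + 1 ∈ S
      · exact absurd (mem_act.2 ⟨h1, h2, h3⟩) hk
      · rw [(per_int h t _).2 h3, mul_zero]
    · rw [(per_int h t _).2 h2, zero_mul]
  · have h2 := (per_int h t k).2 h1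
    have h3 := (per_int h (t + 1) k).2 h1
    rw [T_succ, h2] at h3
    linarith

theorem prod_pos' {S : Finset ℕ} {b0 : ℕ → ℤ} (h : Per S (fun k => (b0 k : ℝ))) (t k : ℕ)
    (hk : k ∈ act S) : 0 < (T^[t] b0) (k - 1) * (T^[t] b0) (k + 1) := by
  obtain ⟨_, h2, h3⟩ := mem_act.1 hk
  exact mul_pos ((per_int h t _).1 h2) ((per_int h t _).1 h3)

theorem uu_int {b0 : ℕ → ℤ} (t k : ℕ) : uu (fun k => (b0 k : ℝ)) t k =
    (((T^[t] b0) (k - 1) * (T^[t] b0) (k + 1) : ℤ) : ℝ) / (((T^[t] b0) k ^ 2 : ℤ) : ℝ) := by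
  unfold uu
  rw [T_iter_cast, T_iter_cast, T_iter_cast]
  push_cast
  rfl

theorem hCMP (h1 : StSUP) (h2 : StSYM) (h3 : StBOX) (h4 : StIDE) : StCMP := by
  intro l hl0 hnn
  obtain ⟨t1, S, hper, hS⟩ := h1 l hl0 hnn
  obtain ⟨Zs, N, ents, p, hsym⟩ := h2 S (T^[t1] (sq l)) hper
  have hbox := h3 l.length N Zs ents p
    (by
      intro en hen
      obtain ⟨ha, hb⟩ := hsym.es en hen
      obtain ⟨ha1, ha2, ha3⟩ := mem_act.1 ha
      refine ⟨?_, hS _ ha3, hb⟩
      rcases Nat.eq_zero_or_pos en.1 with h0 | h0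
      · rw [h0] at ha1
        exact absurd ha1 hper.1
      · exact h0)
    hsym.p01 hsym.pz hsym.pf (fun en hen ce hce => ((hsym.ex1 en hen).2 ce hce).2) hsym.lpn
  obtain ⟨D, e0, Cc, Mg, lo, hi, lo2, hi2, he0, hB, hO, hM, hD, hlh⟩ := hbox
  obtain ⟨s, Dq, Dg, qs, hI⟩ := h4 l.length N Zs ents
  have hD0 : 0 < D := hD.1
  have hDr : (0 : ℝ) < D := by exact_mod_cast hD0
  have her : (0 : ℝ) < e0 := by exact_mod_cast he0
  set b0 : ℕ → ℤ := T^[t1] (sq l) with hb0
  -- eventual conditions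
  have eZ : ∀ᶠ t in atTop, ∀ k ∈ Zs.toFinset,
      (D : ℤ) * ((T^[t] b0) (k - 1) * (T^[t] b0) (k + 1)) ≤ e0 * (T^[t] b0) k ^ 2 := by
    rw [Filter.eventually_all_finset]
    intro k hk
    have hk' : k ∈ Zs := by simpa using hk
    have hka := hsym.zs k hk'
    have hkS : k ∈ S := (mem_act.1 hka).1
    have h5 := (hsym.lz k hk').eventually_lt_const (show (0 : ℝ) < e0 / D by positivity)
    filter_upwards [h5] with t ht
    rw [uu_int] at ht
    have hpos : (0 : ℝ) < (((T^[t] b0) k ^ 2 : ℤ) : ℝ) := by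
      have := (per_int hper t k).1 hkS
      exact_mod_cast (by positivity : 0 < (T^[t] b0) k ^ 2)
    rw [div_lt_div_iff₀ hpos hDr] at ht
    have h6 : ((((T^[t] b0) (k - 1) * (T^[t] b0) (k + 1)) * D : ℤ) : ℝ) <
        ((e0 * (T^[t] b0) k ^ 2 : ℤ) : ℝ) := by
      push_cast at ht ⊢
      exact ht
    have h7 := (Int.cast_lt (R := ℝ)).1 h6
    linarith
  have eY : ∀ᶠ t in atTop, ∀ en ∈ ents.toFinset,
      (ex lo en.1 : ℤ) * (T^[t] b0) en.1 ^ 2 ≤
        D * ((T^[t] b0) (en.1 - 1) * (T^[t] b0) (en.1 + 1)) ∧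
      (D : ℤ) * ((T^[t] b0) (en.1 - 1) * (T^[t] b0) (en.1 + 1)) ≤
        ex hi en.1 * (T^[t] b0) en.1 ^ 2 := by
    rw [Filter.eventually_all_finset]
    intro en hen
    have hen' : en ∈ ents := by simpa using hen
    have hka := (hsym.es en hen').1
    have hkS : en.1 ∈ S := (mem_act.1 hka).1
    obtain ⟨hl1, hl2⟩ := hlh en hen'
    have h5 := (hsym.le en hen').eventually_lt_const
      (show p en.1 < (ex hi en.1 : ℝ) / D by rw [lt_div_iff₀ hDr]; linarith)
    have h6 := (hsym.le en hen').eventually_const_lt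
      (show (ex lo en.1 : ℝ) / D < p en.1 by rw [div_lt_iff₀ hDr]; linarith)
    filter_upwards [h5, h6] with t ht ht'
    rw [uu_int] at ht ht'
    have hpos : (0 : ℝ) < (((T^[t] b0) en.1 ^ 2 : ℤ) : ℝ) := by
      have := (per_int hper t en.1).1 hkS
      exact_mod_cast (by positivity : 0 < (T^[t] b0) en.1 ^ 2)
    rw [div_lt_div_iff₀ hpos hDr] at ht
    rw [div_lt_div_iff₀ hDr hpos] at ht'
    have h6 : ((((T^[t] b0) (en.1 - 1) * (T^[t] b0) (en.1 + 1)) * D : ℤ) : ℝ) <
        ((ex hi en.1 * (T^[t] b0) en.1 ^ 2 : ℤ) : ℝ) := by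
      push_cast at ht ⊢
      exact ht
    have h7 : ((ex lo en.1 * (T^[t] b0) en.1 ^ 2 : ℤ) : ℝ) <
        ((((T^[t] b0) (en.1 - 1) * (T^[t] b0) (en.1 + 1)) * D : ℤ) : ℝ) := by
      push_cast at ht' ⊢
      exact ht'
    have h8 := (Int.cast_lt (R := ℝ)).1 h6
    have h9 := (Int.cast_lt (R := ℝ)).1 h7
    constructor <;> linarith
  have hmp : ∀ t, ∀ e : List ℕ, 0 < mon Zs N e (T^[t] b0) := by
    intro t e
    apply mon_pos
    intro k hk
    have hka := hsym.zs k hk
    exact ⟨(per_int hper t k).1 (mem_act.1 hka).1, prod_pos' hper t k hka⟩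
  have eR : ∀ᶠ t in atTop, ∀ en ∈ ents.toFinset, ∀ ce ∈ en.2.2.toFinset,
      (∀ k ∈ Zs, ex ce.2 k = ex en.2.1 k) ∨
        (D : ℤ) * mon Zs N ce.2 (T^[t] b0) ≤ e0 * mon Zs N en.2.1 (T^[t] b0) := by
    rw [Filter.eventually_all_finset]
    intro en hen
    have hen' : en ∈ ents := by simpa using hen
    rw [Filter.eventually_all_finset]
    intro ce hce
    have hce' : ce ∈ en.2.2 := by simpa using hce
    rcases hsym.dom en hen' ce hce' with h5 | h5
    · exact Filter.Eventually.of_forall (fun t => Or.inl h5)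
    · have h6 := h5.eventually_lt_const (show (0 : ℝ) < e0 / D by positivity)
      filter_upwards [h6] with t ht
      right
      have hpos : (0 : ℝ) < ((mon Zs N en.2.1 (T^[t] b0) : ℤ) : ℝ) := by
        exact_mod_cast hmp t en.2.1
      rw [div_lt_div_iff₀ hpos hDr] at ht
      have h7 : ((mon Zs N ce.2 (T^[t] b0) * D : ℤ) : ℝ) <
          ((e0 * mon Zs N en.2.1 (T^[t] b0) : ℤ) : ℝ) := by
        push_cast at ht ⊢
        exact ht
      have h8 := (Int.cast_lt (R := ℝ)).1 h7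
      linarith
  have eP : ∀ᶠ t in atTop, ∀ en ∈ ents.toFinset, ∀ j ∈ Finset.range (s + 1),
      PT (Zs ++ [en.1]) N en.2.2 (T^[t + j] b0) = 0 := by
    rw [Filter.eventually_all_finset]
    intro en hen
    have hen' : en ∈ ents := by simpa using hen
    rw [Filter.eventually_all_finset]
    intro j _
    exact (tendsto_add_atTop_nat j).eventually (hsym.zero en hen')
  obtain ⟨t, htZ, htY, htR, htP⟩ := (eZ.and (eY.and (eR.and eP))).exists
  have hsq : ∀ j, sq (TL^[j] (TL^[t + t1] l)) = T^[t + j] b0 := by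
    intro j
    rw [sq_TL_iter, sq_TL_iter, hb0, ← Function.iterate_add_apply, ← Function.iterate_add_apply,
      show j + (t + t1) = t + j + t1 by omega]
  have hsq0 : sq (TL^[t + t1] l) = T^[t] b0 := by simpa using hsq 0
  have hlen : (TL^[t + t1] l).length = l.length := length_TL_iter l _
  refine ⟨t + t1, (((D, e0, N, s), (Cc, Mg, Dq, Dg)), ((Zs, lo, hi, lo2, hi2), (ents, qs))), ?_⟩
  refine ⟨?_, ?_, ?_, ?_, ?_, hO, hM, hD, ?_, ?_, ?_⟩
  · -- okS
    unfold okS
    rw [hsq0]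
    refine ⟨(per_int hper t 0).2 hper.1, ?_⟩
    intro k _
    by_cases hk : k ∈ S
    · have := (per_int hper t k).1 hk
      exact ⟨this.le, fun h => absurd h this.ne'⟩
    · refine ⟨((per_int hper t k).2 hk).ge, fun _ => ?_⟩
      exact prod_zero hper t k (fun h => hk (mem_act.1 h).1)
  · -- okC
    unfold okC
    rw [hsq0]
    intro k _
    by_cases hk : k ∈ act S
    · rcases hsym.cov k hk with h5 | h5
      · exact Or.inl h5
      · exact Or.inr (Or.inl h5)
    · exact Or.inr (Or.inr (prod_zero hper t k hk))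
  · -- okZ
    unfold okZ
    rw [hsq0, hlen]
    intro k hk
    have hka := hsym.zs k hk
    exact ⟨hS k (mem_act.1 hka).1, prod_pos' hper t k hka, htZ k (by simpa using hk)⟩
  · -- okY
    unfold okY
    rw [hsq0, hlen]
    intro en hen
    have hka := (hsym.es en hen).1
    have := htY en (by simpa using hen)
    exact ⟨hS _ (mem_act.1 hka).1, prod_pos' hper t _ hka, this.1, this.2⟩
  · -- okB
    show okB (TL^[t + t1] l).length D e0 Cc Zs lo hi ents
    rw [hlen]
    exact hB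
  · -- okR
    unfold okR
    rw [hsq0]
    intro en hen
    refine ⟨(hsym.ex1 en hen).1, ?_⟩
    intro ce hce
    have h5 := (hsym.ex1 en hen).2 ce hce
    exact ⟨h5.1, h5.2, htR en (by simpa using hen) ce (by simpa using hce)⟩
  · -- okP
    unfold okP
    intro en hen j hj
    rw [hsq j]
    exact htP en (by simpa using hen) j (by simpa using hj)
  · -- okI
    show okI (TL^[t + t1] l).length N s Dq Dg Zs ents qs
    rw [hlen]
    exact hI

end Pool.Agent.Helper54.DF
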