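import Pool.Agent.Helper99.DF.St

/-!
# Project DF, module SH: the shell argument
-/

set_option autoImplicit false

namespace Pool.Agent.Helper54.DF

open Pool.Agent.Helper99.DF

/-- The leading polynomial of an entry as a real function. -/
noncomputable def Lr (Zs : List ℕ) (i : ℕ) (ga : List ℕ) (p : Pol) (y : ℝ) : ℝ :=
  (p.map (fun ce => if (∀ k ∈ Zs, ex ce.2 k = ex ga k) then
    (ce.1 : ℝ) * y ^ (ex ce.2 i) else 0)).sum

theorem Lr_cons (Zs : List ℕ) (i : ℕ) (ga : List ℕ) (ce : ℤ × List ℕ) (p : Pol) (y : ℝ) :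
    Lr Zs i ga (ce :: p) y = (if (∀ k ∈ Zs, ex ce.2 k = ex ga k) then
      (ce.1 : ℝ) * y ^ (ex ce.2 i) else 0) + Lr Zs i ga p y := by
  simp [Lr]

theorem nrm_cons (ce : ℤ × List ℕ) (p : Pol) :
    ((nrm (ce :: p) : ℕ) : ℝ) = |(ce.1 : ℝ)| + (nrm p : ℝ) := by
  simp [nrm, Nat.cast_natAbs]

theorem P0_eq (Zs : List ℕ) (i N X m : ℕ) (ga : List ℕ) (p : Pol) (hX : 0 < X)
    (hp : ∀ ce ∈ p, ex ce.2 i ≤ N) :
    ((P0 Zs i N X m ga p : ℤ) : ℝ) = (X : ℝ) ^ N * Lr Zs i ga p ((m : ℝ) / X) := by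
  induction p with
  | nil => simp [P0, Lr]
  | cons ce p ih =>
    have h1 := ih (fun ce' h => hp ce' (by simp [h]))
    have h2 : P0 Zs i N X m ga (ce :: p) = (if (∀ k ∈ Zs, ex ce.2 k = ex ga k) then
        ce.1 * (m : ℤ) ^ (ex ce.2 i) * (X : ℤ) ^ (N - ex ce.2 i) else 0) +
          P0 Zs i N X m ga p := by simp [P0]
    rw [h2, Lr_cons, Int.cast_add, h1, mul_add]
    congr 1
    split_ifs with h
    · have h3 := hp ce (by simp)
      have hX' : (X : ℝ) ≠ 0 := by exact_mod_cast hX.ne'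
      push_cast
      rw [div_pow, ← mul_comm ((ce.1 : ℝ) * _)]
      have h4 : (X : ℝ) ^ N = (X : ℝ) ^ (N - ex ce.2 i) * (X : ℝ) ^ (ex ce.2 i) := by
        rw [← pow_add, Nat.sub_add_cancel h3]
      rw [h4]
      field_simp
    · simp

theorem pow_lip (y z : ℝ) (hy0 : 0 ≤ y) (hy1 : y ≤ 1) (hz0 : 0 ≤ z) (hz1 : z ≤ 1) (e N : ℕ)
    (he : e ≤ N) : |y ^ e - z ^ e| ≤ N * |y - z| := by
  have h1 : ∀ e : ℕ, |y ^ e - z ^ e| ≤ e * |y - z| := by
    intro e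
    induction e with
    | zero => simp
    | succ e ih =>
      have h2 : y ^ (e + 1) - z ^ (e + 1) = y * (y ^ e - z ^ e) + (y - z) * z ^ e := by ring
      rw [h2]
      refine (abs_add_le _ _).trans ?_
      rw [abs_mul, abs_mul, abs_of_nonneg hy0, abs_of_nonneg (pow_nonneg hz0 e)]
      have h3 : z ^ e ≤ 1 := pow_le_one₀ hz0 hz1
      have h4 : y * |y ^ e - z ^ e| ≤ 1 * (e * |y - z|) :=
        mul_le_mul hy1 ih (abs_nonneg _) (by norm_num)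
      have h5 : |y - z| * z ^ e ≤ |y - z| * 1 := mul_le_mul_of_nonneg_left h3 (abs_nonneg _)
      push_cast
      linarith
  refine (h1 e).trans ?_
  have : (e : ℝ) ≤ N := by exact_mod_cast he
  exact mul_le_mul_of_nonneg_right this (abs_nonneg _)

theorem Lr_lip (Zs : List ℕ) (i N : ℕ) (ga : List ℕ) (p : Pol) (y z : ℝ)
    (hy0 : 0 ≤ y) (hy1 : y ≤ 1) (hz0 : 0 ≤ z) (hz1 : z ≤ 1)
    (hp : ∀ ce ∈ p, ex ce.2 i ≤ N) :
    |Lr Zs i ga p y - Lr Zs i ga p z| ≤ (nrm p : ℝ) * (N * |y - z|) := by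
  induction p with
  | nil => simp [Lr, nrm]
  | cons ce p ih =>
    have h1 := ih (fun ce' h => hp ce' (by simp [h]))
    rw [Lr_cons, Lr_cons, nrm_cons]
    have h2 : |(if (∀ k ∈ Zs, ex ce.2 k = ex ga k) then (ce.1 : ℝ) * y ^ (ex ce.2 i) else 0) -
        (if (∀ k ∈ Zs, ex ce.2 k = ex ga k) then (ce.1 : ℝ) * z ^ (ex ce.2 i) else 0)| ≤
          |(ce.1 : ℝ)| * (N * |y - z|) := by
      split_ifs with h
      · rw [← mul_sub, abs_mul]
        exact mul_le_mul_of_nonneg_left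
          (pow_lip y z hy0 hy1 hz0 hz1 _ _ (hp ce (by simp))) (abs_nonneg _)
      · simp only [sub_self, abs_zero]
        positivity
    rw [add_sub_add_comm, add_mul]
    exact (abs_add_le _ _).trans (add_le_add h2 h1)

theorem mon_append (Zs : List ℕ) (i N : ℕ) (e : List ℕ) (b : ℕ → ℤ) :
    mon (Zs ++ [i]) N e b =
      mon Zs N e b * ((b (i - 1) * b (i + 1)) ^ (ex e i) * (b i ^ 2) ^ (N - ex e i)) := by
  simp [mon]

theorem mon_congr (Zs : List ℕ) (N : ℕ) (e ga : List ℕ) (b : ℕ → ℤ)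
    (h : ∀ k ∈ Zs, ex e k = ex ga k) : mon Zs N e b = mon Zs N ga b := by
  unfold mon
  congr 1
  apply List.map_congr_left
  intro k hk
  rw [h k hk]

theorem mon_pos_SH (W : List ℕ) (N : ℕ) (e : List ℕ) (b : ℕ → ℤ)
    (h : ∀ k ∈ W, 0 < b k ∧ 0 < b (k - 1) * b (k + 1)) : 0 < mon W N e b := by
  induction W with
  | nil => simp [mon]
  | cons a W ih =>
    have h1 := h a (by simp)
    have h2 := ih (fun k hk => h k (by simp [hk]))
    have h3 : mon (a :: W) N e b =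
        (b (a - 1) * b (a + 1)) ^ (ex e a) * (b a ^ 2) ^ (N - ex e a) * mon W N e b := by
      simp [mon]
    rw [h3]
    have h4 := h1.1
    have h5 := h1.2
    positivity

/-- The local factor. -/
theorem loc_eq (A V : ℝ) (hA : 0 < A) (N e : ℕ) (he : e ≤ N) :
    V ^ e * A ^ (N - e) = A ^ N * (V / A) ^ e := by
  have h4 : A ^ N = A ^ (N - e) * A ^ e := by
    rw [← pow_add, Nat.sub_add_cancel he]
  rw [h4, div_pow]
  field_simp

theorem PT_approx (D e0 N i : ℕ) (Zs ga : List ℕ) (p : Pol) (b : ℕ → ℤ) (hD : 0 < D)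
    (hZ : ∀ k ∈ Zs, 0 < b k ∧ 0 < b (k - 1) * b (k + 1)) (hbi : 0 < b i)
    (hV : 0 < b (i - 1) * b (i + 1)) (hVA : b (i - 1) * b (i + 1) ≤ b i ^ 2)
    (hp : ∀ ce ∈ p, ex ce.2 i ≤ N ∧
      ((∀ k ∈ Zs, ex ce.2 k = ex ga k) ∨ (D : ℤ) * mon Zs N ce.2 b ≤ e0 * mon Zs N ga b)) :
    |((PT (Zs ++ [i]) N p b : ℤ) : ℝ) - ((b i : ℝ) ^ 2) ^ N * ((mon Zs N ga b : ℤ) : ℝ) *
      Lr Zs i ga p (((b (i - 1) : ℝ) * b (i + 1)) / (b i : ℝ) ^ 2)| ≤
      ((b i : ℝ) ^ 2) ^ N * ((mon Zs N ga b : ℤ) : ℝ) * ((e0 / D : ℝ) * nrm p) := by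
  have hA : (0 : ℝ) < (b i : ℝ) ^ 2 := by
    have : (0 : ℝ) < b i := by exact_mod_cast hbi
    positivity
  have hV' : (0 : ℝ) < (b (i - 1) : ℝ) * b (i + 1) := by exact_mod_cast hV
  have hVA' : (b (i - 1) : ℝ) * b (i + 1) ≤ (b i : ℝ) ^ 2 := by exact_mod_cast hVA
  have hM : (0 : ℝ) < ((mon Zs N ga b : ℤ) : ℝ) := by exact_mod_cast mon_pos_SH Zs N ga b hZ
  have hDr : (0 : ℝ) < D := by exact_mod_cast hD
  have hy0 : 0 ≤ ((b (i - 1) : ℝ) * b (i + 1)) / (b i : ℝ) ^ 2 := by positivity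
  have hy1 : ((b (i - 1) : ℝ) * b (i + 1)) / (b i : ℝ) ^ 2 ≤ 1 := by
    rw [div_le_one hA]; exact hVA'
  induction p with
  | nil => simp [PT, Lr, nrm]
  | cons ce p ih =>
    have h1 := ih (fun ce' h => hp ce' (by simp [h]))
    obtain ⟨he, h2⟩ := hp ce (by simp)
    have h3 : PT (Zs ++ [i]) N (ce :: p) b = ce.1 * mon (Zs ++ [i]) N ce.2 b +
        PT (Zs ++ [i]) N p b := by simp [PT]
    rw [h3, Lr_cons, nrm_cons, mon_append]
    set y : ℝ := ((b (i - 1) : ℝ) * b (i + 1)) / (b i : ℝ) ^ 2 with hy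
    have h4 : (((b (i - 1) * b (i + 1)) ^ (ex ce.2 i) * (b i ^ 2) ^ (N - ex ce.2 i) : ℤ) : ℝ) =
        ((b i : ℝ) ^ 2) ^ N * y ^ (ex ce.2 i) := by
      push_cast
      rw [hy]
      exact loc_eq _ _ hA N _ he
    have h5 : |((ce.1 * (mon Zs N ce.2 b * ((b (i - 1) * b (i + 1)) ^ (ex ce.2 i) *
        (b i ^ 2) ^ (N - ex ce.2 i))) : ℤ) : ℝ) - ((b i : ℝ) ^ 2) ^ N * ((mon Zs N ga b : ℤ) : ℝ) *
        (if (∀ k ∈ Zs, ex ce.2 k = ex ga k) then (ce.1 : ℝ) * y ^ (ex ce.2 i) else 0)| ≤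
        ((b i : ℝ) ^ 2) ^ N * ((mon Zs N ga b : ℤ) : ℝ) * ((e0 / D : ℝ) * |(ce.1 : ℝ)|) := by
      rw [Int.cast_mul, Int.cast_mul, h4]
      by_cases h : ∀ k ∈ Zs, ex ce.2 k = ex ga k
      · rw [if_pos h, mon_congr Zs N ce.2 ga b h]
        have h6 : (ce.1 : ℝ) * (((mon Zs N ga b : ℤ) : ℝ) * (((b i : ℝ) ^ 2) ^ N * y ^ (ex ce.2 i))) -
            ((b i : ℝ) ^ 2) ^ N * ((mon Zs N ga b : ℤ) : ℝ) * ((ce.1 : ℝ) * y ^ (ex ce.2 i)) = 0 := by
          ring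
        rw [h6, abs_zero]
        positivity
      · rw [if_neg h, mul_zero, sub_zero]
        rcases h2 with h2 | h2
        · exact absurd h2 h
        · have h7 : ((mon Zs N ce.2 b : ℤ) : ℝ) ≤ (e0 / D : ℝ) * ((mon Zs N ga b : ℤ) : ℝ) := by
            have h8 : ((D : ℝ) * ((mon Zs N ce.2 b : ℤ) : ℝ)) ≤ (e0 : ℝ) * ((mon Zs N ga b : ℤ) : ℝ) := by
              exact_mod_cast h2
            rw [div_mul_eq_mul_div, le_div_iff₀ hDr]
            linarith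
          have h9 : (0 : ℝ) < ((mon Zs N ce.2 b : ℤ) : ℝ) := by
            exact_mod_cast mon_pos_SH Zs N ce.2 b hZ
          have h10 : y ^ (ex ce.2 i) ≤ 1 := pow_le_one₀ hy0 hy1
          have h11 : 0 ≤ y ^ (ex ce.2 i) := pow_nonneg hy0 _
          rw [abs_mul, abs_of_nonneg (by positivity :
            0 ≤ ((mon Zs N ce.2 b : ℤ) : ℝ) * (((b i : ℝ) ^ 2) ^ N * y ^ (ex ce.2 i)))]
          have h12 : ((mon Zs N ce.2 b : ℤ) : ℝ) * (((b i : ℝ) ^ 2) ^ N * y ^ (ex ce.2 i)) ≤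
              ((e0 / D : ℝ) * ((mon Zs N ga b : ℤ) : ℝ)) * (((b i : ℝ) ^ 2) ^ N * 1) := by
            apply mul_le_mul h7 _ (by positivity) (by positivity)
            exact mul_le_mul_of_nonneg_left h10 (by positivity)
          calc |(ce.1 : ℝ)| * (((mon Zs N ce.2 b : ℤ) : ℝ) * (((b i : ℝ) ^ 2) ^ N * y ^ (ex ce.2 i)))
              ≤ |(ce.1 : ℝ)| * (((e0 / D : ℝ) * ((mon Zs N ga b : ℤ) : ℝ)) *
                (((b i : ℝ) ^ 2) ^ N * 1)) := mul_le_mul_of_nonneg_left h12 (abs_nonneg _)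
            _ = _ := by ring
    have h6 : ∀ (x1 x2 c d1 d2 : ℝ), (x1 + x2) - c * (d1 + d2) = (x1 - c * d1) + (x2 - c * d2) := by
      intro x1 x2 c d1 d2; ring
    rw [Int.cast_add, h6]
    refine (abs_add_le _ _).trans ((add_le_add h5 h1).trans (le_of_eq ?_))
    ring

/-- The main estimate at a grid point near the ratio. -/
theorem shell_point (D e0 N X m i : ℕ) (Zs ga : List ℕ) (p : Pol) (b : ℕ → ℤ) (hD : 0 < D)
    (hX : 0 < X) (hmX : m ≤ X)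
    (hZ : ∀ k ∈ Zs, 0 < b k ∧ 0 < b (k - 1) * b (k + 1)) (hbi : 0 < b i)
    (hV : 0 < b (i - 1) * b (i + 1)) (hVA : b (i - 1) * b (i + 1) ≤ b i ^ 2)
    (hp : ∀ ce ∈ p, ex ce.2 i ≤ N ∧
      ((∀ k ∈ Zs, ex ce.2 k = ex ga k) ∨ (D : ℤ) * mon Zs N ce.2 b ≤ e0 * mon Zs N ga b))
    (h0 : PT (Zs ++ [i]) N p b = 0)
    (hclose : |((b (i - 1) : ℝ) * b (i + 1)) / (b i : ℝ) ^ 2 - (m : ℝ) / X| ≤ 1 / X) :
    D * (P0 Zs i N X m ga p).natAbs ≤ e0 * nrm p * X ^ N + D * N * nrm p * X ^ (N - 1) := by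
  have hA : (0 : ℝ) < (b i : ℝ) ^ 2 := by
    have : (0 : ℝ) < b i := by exact_mod_cast hbi
    positivity
  have hV' : (0 : ℝ) < (b (i - 1) : ℝ) * b (i + 1) := by exact_mod_cast hV
  have hVA' : (b (i - 1) : ℝ) * b (i + 1) ≤ (b i : ℝ) ^ 2 := by exact_mod_cast hVA
  have hM : (0 : ℝ) < ((mon Zs N ga b : ℤ) : ℝ) := by exact_mod_cast mon_pos_SH Zs N ga b hZ
  have hDr : (0 : ℝ) < D := by exact_mod_cast hD
  have hXr : (0 : ℝ) < X := by exact_mod_cast hX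
  have hap := PT_approx D e0 N i Zs ga p b hD hZ hbi hV hVA hp
  set y : ℝ := ((b (i - 1) : ℝ) * b (i + 1)) / (b i : ℝ) ^ 2 with hy
  have hy0 : 0 ≤ y := by positivity
  have hy1 : y ≤ 1 := by rw [hy, div_le_one hA]; exact hVA'
  rw [h0, Int.cast_zero, zero_sub, abs_neg, abs_mul, abs_of_pos (by positivity :
    (0 : ℝ) < ((b i : ℝ) ^ 2) ^ N * ((mon Zs N ga b : ℤ) : ℝ))] at hap
  have h1 : |Lr Zs i ga p y| ≤ (e0 / D : ℝ) * nrm p :=
    le_of_mul_le_mul_left hap (by positivity)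
  have hz0 : (0 : ℝ) ≤ (m : ℝ) / X := by positivity
  have hz1 : (m : ℝ) / X ≤ 1 := by
    rw [div_le_one hXr]; exact_mod_cast hmX
  have h2 := Lr_lip Zs i N ga p ((m : ℝ) / X) y hz0 hz1 hy0 hy1 (fun ce hce => (hp ce hce).1)
  have h3 : |Lr Zs i ga p ((m : ℝ) / X)| ≤ (e0 / D : ℝ) * nrm p + (nrm p : ℝ) * (N * (1 / X)) := by
    have h4 : Lr Zs i ga p ((m : ℝ) / X) =
      Lr Zs i ga p y + (Lr Zs i ga p ((m : ℝ) / X) - Lr Zs i ga p y) := by ring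
    rw [h4]
    refine (abs_add_le _ _).trans (add_le_add h1 (h2.trans ?_))
    rw [abs_sub_comm]
    apply mul_le_mul_of_nonneg_left _ (by positivity)
    exact mul_le_mul_of_nonneg_left hclose (by positivity)
  have h5 : ((P0 Zs i N X m ga p).natAbs : ℝ) =
      (X : ℝ) ^ N * |Lr Zs i ga p ((m : ℝ) / X)| := by
    rw [Nat.cast_natAbs, Int.cast_abs, P0_eq Zs i N X m ga p hX (fun ce hce => (hp ce hce).1),
      abs_mul, abs_of_pos (by positivity : (0 : ℝ) < (X : ℝ) ^ N)]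
  have h6 : ((D * (P0 Zs i N X m ga p).natAbs : ℕ) : ℝ) ≤
      ((e0 * nrm p * X ^ N + D * N * nrm p * X ^ (N - 1) : ℕ) : ℝ) := by
    push_cast
    rw [h5]
    have h7 : (D : ℝ) * ((X : ℝ) ^ N * |Lr Zs i ga p ((m : ℝ) / X)|) ≤
        (D : ℝ) * ((X : ℝ) ^ N * ((e0 / D : ℝ) * nrm p + (nrm p : ℝ) * (N * (1 / X)))) := by
      apply mul_le_mul_of_nonneg_left _ hDr.le
      exact mul_le_mul_of_nonneg_left h3 (by positivity)
    refine h7.trans (le_of_eq ?_)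
    rcases Nat.eq_zero_or_pos N with hN | hN
    · subst hN
      field_simp
      push_cast
      ring
    · obtain ⟨n, rfl⟩ : ∃ n, N = n + 1 := ⟨N - 1, by omega⟩
      rw [Nat.add_sub_cancel]
      field_simp
      push_cast
      ring
  exact_mod_cast h6

theorem hSH : StSH := by
  intro D e0 N Mg Zs lo hi lo2 hi2 ents b hD hMg hM en hen hhi2 hZ hbi hV hga hce h0 hl2 hh2
  have hDi : (0 : ℤ) < D := by exact_mod_cast hD
  have hA : (0 : ℤ) < b en.1 ^ 2 := by positivity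
  have hVA : b (en.1 - 1) * b (en.1 + 1) ≤ b en.1 ^ 2 := by
    have h1 : (ex hi2 en.1 : ℤ) ≤ D := by exact_mod_cast hhi2
    have h2 : (D : ℤ) * (b (en.1 - 1) * b (en.1 + 1)) ≤ D * b en.1 ^ 2 :=
      hh2.trans (mul_le_mul_of_nonneg_right h1 hA.le)
    exact le_of_mul_le_mul_left h2 hDi
  have hX : 0 < Mg * D := Nat.mul_pos hMg hD
  have hAr : (0 : ℝ) < (b en.1 : ℝ) ^ 2 := by exact_mod_cast hA
  have hVr : (0 : ℝ) < (b (en.1 - 1) : ℝ) * b (en.1 + 1) := by exact_mod_cast hV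
  have hVAr : (b (en.1 - 1) : ℝ) * b (en.1 + 1) ≤ (b en.1 : ℝ) ^ 2 := by exact_mod_cast hVA
  have hDr : (0 : ℝ) < D := by exact_mod_cast hD
  have hMgr : (0 : ℝ) < Mg := by exact_mod_cast hMg
  have hXr : (0 : ℝ) < ((Mg * D : ℕ) : ℝ) := by exact_mod_cast hX
  have hce' : ∀ ce ∈ en.2.2, ex ce.2 en.1 ≤ N ∧
      ((∀ k ∈ Zs, ex ce.2 k = ex en.2.1 k) ∨
        (D : ℤ) * mon Zs N ce.2 b ≤ e0 * mon Zs N en.2.1 b) :=
    fun ce h => ⟨(hce ce h).2.1, (hce ce h).2.2⟩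
  set y : ℝ := ((b (en.1 - 1) : ℝ) * b (en.1 + 1)) / (b en.1 : ℝ) ^ 2 with hy
  have hy0 : 0 ≤ y := by positivity
  have hy1 : y ≤ 1 := by rw [hy, div_le_one hAr]; exact hVAr
  have hl2r : (ex lo2 en.1 : ℝ) ≤ D * y := by
    have h1 : ((ex lo2 en.1 : ℝ)) * (b en.1 : ℝ) ^ 2 ≤
        D * ((b (en.1 - 1) : ℝ) * b (en.1 + 1)) := by exact_mod_cast hl2
    rw [hy, ← mul_div_assoc, le_div_iff₀ hAr]
    exact h1
  have hh2r : D * y ≤ (ex hi2 en.1 : ℝ) := by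
    have h1 : D * ((b (en.1 - 1) : ℝ) * b (en.1 + 1)) ≤
        ((ex hi2 en.1 : ℝ)) * (b en.1 : ℝ) ^ 2 := by exact_mod_cast hh2
    rw [hy, ← mul_div_assoc, div_le_iff₀ hAr]
    exact h1
  have key : ∀ m : ℕ, m ≤ Mg * D →
      ((ex lo2 en.1 * Mg ≤ m ∧ m ≤ ex lo en.1 * Mg) ∨
        (ex hi en.1 * Mg ≤ m ∧ m ≤ ex hi2 en.1 * Mg)) →
      |y - (m : ℝ) / ((Mg * D : ℕ) : ℝ)| ≤ 1 / ((Mg * D : ℕ) : ℝ) → False := by
    intro m hm hr hc
    have h1 := hM en hen m (by simp; omega) hr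
    have h2 := shell_point D e0 N (Mg * D) m en.1 Zs en.2.1 en.2.2 b hD hX hm hZ hbi hV hVA
      hce' h0 hc
    omega
  constructor
  · by_contra hcon
    push Not at hcon
    have h1 : D * y < (ex lo en.1 : ℝ) := by
      have h1 : D * ((b (en.1 - 1) : ℝ) * b (en.1 + 1)) <
        ((ex lo en.1 : ℝ)) * (b en.1 : ℝ) ^ 2 := by exact_mod_cast hcon
      rw [hy, ← mul_div_assoc, div_lt_iff₀ hAr]
      exact h1
    have hyX : 0 ≤ y * ((Mg * D : ℕ) : ℝ) := by positivity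
    have h2 := Nat.floor_le hyX
    have h3 := Nat.lt_floor_add_one (y * ((Mg * D : ℕ) : ℝ))
    refine key ⌊y * ((Mg * D : ℕ) : ℝ)⌋₊ ?_ (Or.inl ⟨?_, ?_⟩) ?_
    · apply Nat.floor_le_of_le
      exact mul_le_of_le_one_left hXr.le hy1
    · apply Nat.le_floor
      push_cast
      nlinarith
    · apply Nat.floor_le_of_le
      push_cast
      nlinarith
    · rw [abs_le]
      constructor
      · have h4 : (⌊y * ((Mg * D : ℕ) : ℝ)⌋₊ : ℝ) / ((Mg * D : ℕ) : ℝ) ≤ y := by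
          rw [div_le_iff₀ hXr]; exact h2
        have h5 : (0 : ℝ) < 1 / ((Mg * D : ℕ) : ℝ) := by positivity
        linarith
      · rw [sub_le_iff_le_add, ← add_div, le_div_iff₀ hXr]
        linarith
  · by_contra hcon
    push Not at hcon
    have h1 : (ex hi en.1 : ℝ) < D * y := by
      have h1 : ((ex hi en.1 : ℝ)) * (b en.1 : ℝ) ^ 2 <
        D * ((b (en.1 - 1) : ℝ) * b (en.1 + 1)) := by exact_mod_cast hcon
      rw [hy, ← mul_div_assoc, lt_div_iff₀ hAr]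
      exact h1
    have hyX : 0 ≤ y * ((Mg * D : ℕ) : ℝ) := by positivity
    have h2 := Nat.le_ceil (y * ((Mg * D : ℕ) : ℝ))
    have h3 := Nat.ceil_lt_add_one hyX
    refine key ⌈y * ((Mg * D : ℕ) : ℝ)⌉₊ ?_ (Or.inr ⟨?_, ?_⟩) ?_
    · apply Nat.ceil_le.2
      exact mul_le_of_le_one_left hXr.le hy1
    · have h4 : ((ex hi en.1 * Mg : ℕ) : ℝ) ≤ (⌈y * ((Mg * D : ℕ) : ℝ)⌉₊ : ℝ) := by
        refine le_trans ?_ h2
        push_cast
        nlinarith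
      exact_mod_cast h4
    · apply Nat.ceil_le.2
      push_cast
      nlinarith
    · rw [abs_le]
      constructor
      · rw [neg_le_sub_iff_le_add, ← sub_le_iff_le_add, ← sub_div, div_le_iff₀ hXr]
        linarith
      · have h4 : y ≤ (⌈y * ((Mg * D : ℕ) : ℝ)⌉₊ : ℝ) / ((Mg * D : ℕ) : ℝ) := by
          rw [le_div_iff₀ hXr]; exact h2
        have h5 : (0 : ℝ) < 1 / ((Mg * D : ℕ) : ℝ) := by positivity
        linarith

end Pool.Agent.Helper54.DF
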